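import Pool.Agent.H31.MP.Targets4

/-!
Row ZE of the board mtp (MP_76b9e7_nt): where no two changes are close.
-/

set_option autoImplicit false

open Finset Real
open scoped Nat

namespace Pool.Agent.H89.MP

open Pool.Agent.H31.MP
open Pool.Agent.H21.PI (X gam)

theorem Icc_Ico (a b : ℕ) : Icc a b = Ico a (b + 1) := by
  ext x
  rw [mem_Icc, mem_Ico]
  omega

theorem X_step (m L : ℕ) (h1 : ⌊Real.log (m : ℝ)⌋₊ = L)
    (h2 : ⌊Real.log ((m + 1 : ℕ) : ℝ)⌋₊ = L) :
    X (m + 1) + (if m.Prime then 1 else 0) = X m + (if (m + 2 + L).Prime then 1 else 0) := by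
  unfold X
  rw [h1, h2, card_filter, card_filter, Icc_Ico, Icc_Ico]
  have e1 : ∑ i ∈ Ico m (m + 1 + 1 + L + 1), (if i.Prime then 1 else 0) =
      (if m.Prime then 1 else 0) + ∑ i ∈ Ico (m + 1) (m + 1 + 1 + L + 1),
        (if i.Prime then 1 else 0) := Finset.sum_eq_sum_Ico_succ_bot (by omega) _
  have e2 : ∑ i ∈ Ico m (m + 1 + L + 1 + 1), (if i.Prime then 1 else 0) =
      ∑ i ∈ Ico m (m + 1 + L + 1), (if i.Prime then 1 else 0) +
        (if (m + 1 + L + 1).Prime then 1 else 0) := Finset.sum_Ico_succ_top (by omega) _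
  have e3 : m + 1 + 1 + L + 1 = m + 1 + L + 1 + 1 := by ring
  have e4 : m + 1 + L + 1 = m + 2 + L := by ring
  rw [e3] at e1
  rw [e3, add_comm, ← e1, e2, e4]

theorem X_eq_of_not (m L : ℕ) (h1 : ⌊Real.log (m : ℝ)⌋₊ = L)
    (h2 : ⌊Real.log ((m + 1 : ℕ) : ℝ)⌋₊ = L) (h : ¬ Ev m) : X (m + 1) = X m := by
  have hs := X_step m L h1 h2
  unfold Ev at h
  rw [not_or, h1] at h
  rw [if_neg h.1, if_neg h.2] at hs
  exact hs

theorem X_le_step (m L : ℕ) (h1 : ⌊Real.log (m : ℝ)⌋₊ = L)
    (h2 : ⌊Real.log ((m + 1 : ℕ) : ℝ)⌋₊ = L) : X (m + 1) ≤ X m + 1 ∧ X m ≤ X (m + 1) + 1 := by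
  have hs := X_step m L h1 h2
  split_ifs at hs <;> omega

/-- constancy on a run without changes -/
theorem X_const (a d L : ℕ) (hL : ∀ t, a ≤ t → t ≤ a + d → ⌊Real.log (t : ℝ)⌋₊ = L)
    (hE : ∀ t, a ≤ t → t < a + d → ¬ Ev t) : ∀ i, i ≤ d → X (a + i) = X a := by
  intro i
  induction i with
  | zero => intro _; rfl
  | succ i ih =>
    intro hi
    rw [← ih (by omega)]
    exact X_eq_of_not (a + i) L (hL _ (by omega) (by omega)) (hL (a + i + 1) (by omega) (by omega))
      (hE _ (by omega) (by omega))

theorem pf_ZE : T_ZE := by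
  intro j k T R L hT hTk hL hE
  have hL' : ∀ t, k - T ≤ t → t ≤ k + R + T + 1 → ⌊Real.log (t : ℝ)⌋₊ = L := by
    intro t h1 h2
    exact hL t (mem_Icc.2 ⟨h1, h2⟩)
  have hE' : ∀ m m', k - T ≤ m → m' ≤ k + R + T → m < m' → m' ≤ m + T → Ev m → Ev m' → False := by
    intro m m' h1 h2 h3 h4 h5 h6
    exact hE m (mem_Icc.2 ⟨h1, by omega⟩) m' (mem_Icc.2 ⟨by omega, h2⟩) h3 h4 ⟨h5, h6⟩
  constructor
  · rintro ⟨m, hm, hmj⟩
    rw [mem_Icc] at hm
    have run : ∀ a, k - T ≤ a → a + T / 2 ≤ k + R + T →
        (∀ t, a ≤ t → t < a + T / 2 → ¬ Ev t) → X a = j →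
        T / 2 ≤ ((Icc (k - T) (k + R + T)).filter (fun m => X m = j)).card := by
      intro a h1 h2 h3 h4
      have hc := X_const a (T / 2) L (fun t ht1 ht2 => hL' t (by omega) (by omega)) h3
      have hsub : (range (T / 2)).image (fun i => a + i) ⊆
          (Icc (k - T) (k + R + T)).filter (fun m => X m = j) := by
        intro x hx
        rw [mem_image] at hx
        obtain ⟨i, hi, rfl⟩ := hx
        rw [mem_range] at hi
        rw [mem_filter, mem_Icc]
        exact ⟨⟨by omega, by omega⟩, by rw [hc i (by omega), h4]⟩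
      have hcard : ((range (T / 2)).image (fun i => a + i)).card = T / 2 := by
        rw [card_image_of_injective _ (fun x y hxy => by simpa using hxy), card_range]
      rw [← hcard]
      exact card_le_card hsub
    by_cases hex : ∃ t, m ≤ t ∧ t < m + T / 2 ∧ Ev t
    · obtain ⟨e, he1, he2, he3⟩ := hex
      have hno : ∀ t, m - T / 2 ≤ t → t < m - T / 2 + T / 2 → ¬ Ev t := by
        intro t h1 h2 h3
        exact hE' t e (by omega) (by omega) (by omega) (by omega) h3 he3
      have hc := X_const (m - T / 2) (T / 2) L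
        (fun t ht1 ht2 => hL' t (by omega) (by omega)) hno (T / 2) le_rfl
      rw [show m - T / 2 + T / 2 = m by omega, hmj] at hc
      exact run (m - T / 2) (by omega) (by omega) hno hc.symm
    · push Not at hex
      exact run m (by omega) (by omega) (fun t h1 h2 => hex t h1 h2) hmj
  · intro hne
    have hne' : ∀ t, k ≤ t → t ≤ k + R → X t ≠ j := fun t h1 h2 => hne t (mem_Icc.2 ⟨h1, h2⟩)
    rcases lt_or_gt_of_ne (hne' k le_rfl (by omega)) with h | h
    · left
      have : ∀ i, i ≤ R → X (k + i) < j := by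
        intro i
        induction i with
        | zero => intro _; exact h
        | succ i ih =>
          intro hi
          have h1 := ih (by omega)
          have h2 := (X_le_step (k + i) L (hL' _ (by omega) (by omega))
            (hL' (k + i + 1) (by omega) (by omega))).1
          have h3 := hne' (k + (i + 1)) (by omega) (by omega)
          rw [show k + i + 1 = k + (i + 1) by ring] at h2
          omega
      intro m hm
      rw [mem_Icc] at hm
      have := this (m - k) (by omega)
      rwa [show k + (m - k) = m by omega] at this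
    · right
      have : ∀ i, i ≤ R → j < X (k + i) := by
        intro i
        induction i with
        | zero => intro _; exact h
        | succ i ih =>
          intro hi
          have h1 := ih (by omega)
          have h2 := (X_le_step (k + i) L (hL' _ (by omega) (by omega))
            (hL' (k + i + 1) (by omega) (by omega))).2
          have h3 := hne' (k + (i + 1)) (by omega) (by omega)
          rw [show k + i + 1 = k + (i + 1) by ring] at h2
          omega
      intro m hm
      rw [mem_Icc] at hm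
      have := this (m - k) (by omega)
      rwa [show k + (m - k) = m by omega] at this

end Pool.Agent.H89.MP
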